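import Pool.Agent.W394.BQN.Stm2

set_option autoImplicit false

open Polynomial

noncomputable section

namespace Pool.Agent.W163.BQN

open BQ Pool.Agent.W394.BQN

section

variable (C : Type) [CommRing C] (u v : C) (n : ℕ)

/-- images of the variables -/
def ax : Fin (n + 1) → Semi C u n :=
  Fin.cons (Q.pr C u n (MvPolynomial.C v) * Q.pr C u n (MvPolynomial.X 0))
    (fun i => Q.pr C u n (MvPolynomial.X i.succ))

theorem ax_prod : ∏ i, ax C u v n i = ((Q.pr C u n).comp MvPolynomial.C) (u * v) := by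
  rw [Fin.prod_univ_succ]
  have h0 : ax C u v n 0 = Q.pr C u n (MvPolynomial.C v) * Q.pr C u n (MvPolynomial.X 0) := rfl
  have h1 : ∀ i : Fin n, ax C u v n i.succ = Q.pr C u n (MvPolynomial.X i.succ) := fun i => rfl
  rw [h0]
  simp only [h1]
  have hp := Q.pr_prod C u n
  rw [Fin.prod_univ_succ] at hp
  rw [mul_assoc, hp]
  show _ = Q.pr C u n (MvPolynomial.C (u * v))
  rw [← map_mul, ← map_mul, mul_comm v u]

/-- the map `x_0 ↦ v x_0` -/
def psi : Semi C (u * v) n →+* Semi C u n :=
  Q.lft C (u * v) n ((Q.pr C u n).comp MvPolynomial.C) (ax C u v n) (ax_prod C u v n)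

theorem psi_C (c : C) : psi C u v n (Q.pr C (u * v) n (MvPolynomial.C c)) =
    Q.pr C u n (MvPolynomial.C c) := Q.lft_C _ _ _ _ _ _ c

theorem psi_X0 : psi C u v n (Q.pr C (u * v) n (MvPolynomial.X 0)) =
    Q.pr C u n (MvPolynomial.C v) * Q.pr C u n (MvPolynomial.X 0) := Q.lft_X _ _ _ _ _ _ 0

theorem psi_Xs (i : Fin n) : psi C u v n (Q.pr C (u * v) n (MvPolynomial.X i.succ)) =
    Q.pr C u n (MvPolynomial.X i.succ) := Q.lft_X _ _ _ _ _ _ i.succ

/-- the constant `v` -/
abbrev vA : Semi C (u * v) n := Q.pr C (u * v) n (MvPolynomial.C v)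

/-- the localisation -/
abbrev LA : Type := Localization.Away (vA C u v n)

/-- images of the variables -/
def bx : Fin (n + 1) → LA C u v n :=
  Fin.cons (IsLocalization.Away.invSelf (vA C u v n) *
      algebraMap (Semi C (u * v) n) (LA C u v n) (Q.pr C (u * v) n (MvPolynomial.X 0)))
    (fun i => algebraMap (Semi C (u * v) n) (LA C u v n) (Q.pr C (u * v) n (MvPolynomial.X i.succ)))

theorem bx_prod : ∏ i, bx C u v n i = ((algebraMap (Semi C (u * v) n) (LA C u v n)).comp
    ((Q.pr C (u * v) n).comp MvPolynomial.C)) u := by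
  rw [Fin.prod_univ_succ]
  have h0 : bx C u v n 0 = IsLocalization.Away.invSelf (vA C u v n) *
      algebraMap (Semi C (u * v) n) (LA C u v n) (Q.pr C (u * v) n (MvPolynomial.X 0)) := rfl
  have h1 : ∀ i : Fin n, bx C u v n i.succ =
    algebraMap (Semi C (u * v) n) (LA C u v n) (Q.pr C (u * v) n (MvPolynomial.X i.succ)) :=
      fun i => rfl
  rw [h0]
  simp only [h1]
  have hp := Q.pr_prod C (u * v) n
  rw [Fin.prod_univ_succ] at hp
  have hC : Q.pr C (u * v) n (MvPolynomial.C (u * v)) =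
      Q.pr C (u * v) n (MvPolynomial.C u) * Q.pr C (u * v) n (MvPolynomial.C v) :=
    (congrArg (Q.pr C (u * v) n) (MvPolynomial.C_mul (a := u) (a' := v))).trans
      (map_mul (Q.pr C (u * v) n) _ _)
  rw [← map_prod, mul_assoc, ← map_mul, hp, hC]
  show _ = algebraMap (Semi C (u * v) n) (LA C u v n) (Q.pr C (u * v) n (MvPolynomial.C u))
  rw [map_mul (algebraMap (Semi C (u * v) n) (LA C u v n))]
  have hv : algebraMap (Semi C (u * v) n) (LA C u v n) (vA C u v n) *
      IsLocalization.Away.invSelf (vA C u v n) = 1 := IsLocalization.Away.mul_invSelf _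
  calc _ = algebraMap (Semi C (u * v) n) (LA C u v n) (Q.pr C (u * v) n (MvPolynomial.C u)) *
      (algebraMap (Semi C (u * v) n) (LA C u v n) (vA C u v n) *
      IsLocalization.Away.invSelf (vA C u v n)) := by ring
    _ = _ := by rw [hv, mul_one]

/-- the partial inverse -/
def theta : Semi C u n →+* LA C u v n :=
  Q.lft C u n ((algebraMap (Semi C (u * v) n) (LA C u v n)).comp
    ((Q.pr C (u * v) n).comp MvPolynomial.C)) (bx C u v n) (bx_prod C u v n)

theorem theta_C (c : C) : theta C u v n (Q.pr C u n (MvPolynomial.C c)) =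
    algebraMap (Semi C (u * v) n) (LA C u v n) (Q.pr C (u * v) n (MvPolynomial.C c)) :=
  Q.lft_C _ _ _ _ _ _ c

theorem theta_X0 : theta C u v n (Q.pr C u n (MvPolynomial.X 0)) =
    IsLocalization.Away.invSelf (vA C u v n) *
      algebraMap (Semi C (u * v) n) (LA C u v n) (Q.pr C (u * v) n (MvPolynomial.X 0)) :=
  Q.lft_X _ _ _ _ _ _ 0

theorem theta_Xs (i : Fin n) : theta C u v n (Q.pr C u n (MvPolynomial.X i.succ)) =
      algebraMap (Semi C (u * v) n) (LA C u v n) (Q.pr C (u * v) n (MvPolynomial.X i.succ)) :=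
  Q.lft_X _ _ _ _ _ _ i.succ

theorem theta_psi : (theta C u v n).comp (psi C u v n) =
    algebraMap (Semi C (u * v) n) (LA C u v n) := by
  apply Q.hext
  · intro c
    rw [RingHom.comp_apply, psi_C, theta_C]
  · intro i
    refine Fin.cases ?_ (fun i => ?_) i
    · rw [RingHom.comp_apply, psi_X0, map_mul (theta C u v n), theta_C, theta_X0, ← mul_assoc]
      have hv : algebraMap (Semi C (u * v) n) (LA C u v n) (vA C u v n) *
        IsLocalization.Away.invSelf (vA C u v n) = 1 := IsLocalization.Away.mul_invSelf _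
      rw [hv, one_mul]
    · rw [RingHom.comp_apply, psi_Xs, theta_Xs]

theorem psi_ker (a : Semi C (u * v) n) (ha : psi C u v n a = 0) :
    ∃ m ∈ Submonoid.powers (vA C u v n), m * a = 0 := by
  have h : algebraMap (Semi C (u * v) n) (LA C u v n) a = 0 := by
    rw [← theta_psi, RingHom.comp_apply, ha, map_zero]
  obtain ⟨m, hm⟩ := (IsLocalization.map_eq_zero_iff (Submonoid.powers (vA C u v n))
    (LA C u v n) a).1 h
  exact ⟨m, m.2, hm⟩

theorem psi_surj (b : Semi C u n) :
    ∃ m ∈ Submonoid.powers (vA C u v n), ∃ a, psi C u v n m * b = psi C u v n a := by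
  obtain ⟨p, hp⟩ := Ideal.Quotient.mk_surjective b
  have hp' : Q.pr C u n p = b := hp
  subst hp'
  clear hp
  induction p using MvPolynomial.induction_on with
  | C c =>
    refine ⟨1, Submonoid.one_mem _, Q.pr C (u * v) n (MvPolynomial.C c), ?_⟩
    rw [map_one (psi C u v n), one_mul, psi_C]
  | add p q hp hq =>
    obtain ⟨m₁, h₁, a₁, e₁⟩ := hp
    obtain ⟨m₂, h₂, a₂, e₂⟩ := hq
    refine ⟨m₁ * m₂, Submonoid.mul_mem _ h₁ h₂, m₂ * a₁ + m₁ * a₂, ?_⟩
    rw [map_mul (psi C u v n), map_add (Q.pr C u n), map_add (psi C u v n),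
      map_mul (psi C u v n), map_mul (psi C u v n), ← e₁, ← e₂]
    ring
  | mul_X p i hp =>
    obtain ⟨m, hm, a, e⟩ := hp
    revert e
    refine Fin.cases ?_ (fun i => ?_) i
    · intro e
      refine ⟨m * vA C u v n, Submonoid.mul_mem _ hm (Submonoid.mem_powers _),
        a * Q.pr C (u * v) n (MvPolynomial.X 0), ?_⟩
      rw [map_mul (psi C u v n), map_mul (Q.pr C u n), map_mul (psi C u v n), psi_X0, ← e, psi_C]
      ring
    · intro e
      refine ⟨m, hm, a * Q.pr C (u * v) n (MvPolynomial.X i.succ), ?_⟩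
      rw [map_mul (Q.pr C u n), map_mul (psi C u v n), psi_Xs, ← e]
      ring

end

theorem t_SLA (h : S_GL) : S_SLA := by
  intro C _ u v n q hq hv
  have hG := (h (Semi C (u * v) n) (Semi C u n) (psi C u v n) (Submonoid.powers (vA C u v n))
    (psi_ker C u v n) (psi_surj C u v n)).2 q (by
      rintro m ⟨k, rfl⟩ hm
      exact hv (hq.mem_of_pow_mem k hm))
  obtain ⟨q', hq', -, he⟩ := hG
  exact ⟨q', hq', he⟩

end Pool.Agent.W163.BQN
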